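import Pool.Agent.Helper70.BN.St2

/-!
# Module BINV of project BN (MP_a2f62e_al)

(1) a `B`-invariant function `f` with `avg B (L n f) = f` is invariant under `n`;
(2) a function reached from the point mass at `1` whose multiple is invariant under the whole group is uniform.
-/

set_option autoImplicit false

namespace Pool.Agent.Helper2.BN

open Pool.Agent.Helper70.BN Pool.Agent.Helper75.MX Pool.Agent.Helper70.ML

section aux

variable {G : Type} [Group G] [Fintype G]

theorem sum_L (g : G) (u : G → ℝ) : ∑ x, L g u x = ∑ x, u x :=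
  Equiv.sum_comp (Equiv.mulLeft g⁻¹) u

theorem sum_LL (g : G) (u v : G → ℝ) : ∑ x, L g u x * L g v x = ∑ x, u x * v x :=
  Equiv.sum_comp (Equiv.mulLeft g⁻¹) (fun x => u x * v x)

theorem sum_inv {B : Subgroup G} {f : G → ℝ} (hf : B ≤ stab f) (b : B) (h : G → ℝ) :
    ∑ x, f x * L (b : G) h x = ∑ x, f x * h x := by
  have h1 : L (b : G) f = f := mem_stab.1 (hf b.2)
  calc ∑ x, f x * L (b : G) h x = ∑ x, L (b : G) f x * L (b : G) h x := by rw [h1]
    _ = ∑ x, f x * h x := sum_LL _ _ _

theorem sum_avg {B : Subgroup G} {f : G → ℝ} (hf : B ≤ stab f) (h : G → ℝ) :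
    ∑ x, f x * avg B h x = ∑ x, f x * h x := by
  classical
  have hB : (Nat.card B : ℝ) ≠ 0 := by
    have : 0 < Nat.card B := Nat.card_pos
    positivity
  have h1 : ∀ x, avg B h x = (1 / (Nat.card B : ℝ)) * ∑ b : B, L (b : G) h x := by
    intro x
    rw [avg, finsum_eq_sum_of_fintype, Pi.smul_apply, Finset.sum_apply, smul_eq_mul]
  calc ∑ x, f x * avg B h x
      = ∑ x, (1 / (Nat.card B : ℝ)) * ∑ b : B, f x * L (b : G) h x := by
        refine Finset.sum_congr rfl fun x _ => ?_
        rw [h1, Finset.mul_sum, Finset.mul_sum, Finset.mul_sum]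
        refine Finset.sum_congr rfl fun b _ => ?_
        ring
    _ = (1 / (Nat.card B : ℝ)) * ∑ b : B, ∑ x, f x * L (b : G) h x := by
        rw [← Finset.mul_sum, Finset.sum_comm]
    _ = (1 / (Nat.card B : ℝ)) * ∑ _b : B, ∑ x, f x * h x := by
        congr 1
        exact Finset.sum_congr rfl fun b _ => sum_inv hf b h
    _ = ∑ x, f x * h x := by
        rw [Finset.sum_const, Finset.card_univ, ← Nat.card_eq_fintype_card, nsmul_eq_mul]
        field_simp

theorem sum_app (l : List (G × ℝ)) (f : G → ℝ) : ∑ x, app l f x = ∑ x, f x := by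
  induction l with
  | nil => rfl
  | cons a l ih =>
    rw [app_cons]
    have h1 : ∀ x, lz a.1 a.2 (app l f) x = (1 - a.2) * app l f x + a.2 * L a.1 (app l f) x :=
      fun x => rfl
    simp only [h1]
    rw [Finset.sum_add_distrib, ← Finset.mul_sum, ← Finset.mul_sum, sum_L, ih]
    ring

end aux

theorem hBINV (_hBAVG : StBAVG) : StBINV := by
  refine ⟨?_, ?_⟩
  · intro G _ _ B n f hf he
    have : Fintype G := Fintype.ofFinite G
    have h1 : ∑ x, f x * L n f x = ∑ x, f x * f x := by
      rw [← sum_avg hf (L n f), he]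
    have h2 : ∑ x, L n f x * L n f x = ∑ x, f x * f x := sum_LL n f f
    have h3 : ∑ x, (L n f x - f x) ^ 2 = 0 := by
      have : ∀ x, (L n f x - f x) ^ 2 = L n f x * L n f x - 2 * (f x * L n f x) + f x * f x := by
        intro x; ring
      simp only [this]
      rw [Finset.sum_add_distrib, Finset.sum_sub_distrib, ← Finset.mul_sum, h1, h2]
      ring
    rw [Finset.sum_eq_zero_iff_of_nonneg (fun x _ => sq_nonneg _)] at h3
    rw [mem_stab]
    funext x
    have h4 := h3 x (Finset.mem_univ x)
    have h5 : L n f x - f x = 0 := by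
      exact pow_eq_zero_iff (two_ne_zero) |>.1 h4
    linarith
  · intro G _ _ k f lam hr hl hs
    have : Fintype G := Fintype.ofFinite G
    classical
    obtain ⟨l, hlen, hok, hap⟩ := hr
    have h1 : ∑ x, (lam • f) x = 1 := by
      rw [← hap, sum_app]
      simp [dlt]
    have h2 : ∀ x, f x = f 1 := by
      intro x
      have hx : x ∈ stab f := by rw [hs]; exact Subgroup.mem_top x
      have h3 : L x f x = f x := by rw [mem_stab.1 hx]
      rw [← h3]
      simp [L]
    have h4 : (Nat.card G : ℝ) * (lam * f 1) = 1 := by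
      rw [← h1]
      have : ∀ x, (lam • f) x = lam * f 1 := by
        intro x
        rw [Pi.smul_apply, smul_eq_mul, h2 x]
      simp only [this]
      rw [Finset.sum_const, Finset.card_univ, ← Nat.card_eq_fintype_card, nsmul_eq_mul]
    have h5 : lam • f = uni G := by
      funext x
      rw [Pi.smul_apply, smul_eq_mul, h2 x, uni]
      have hG : (Nat.card G : ℝ) ≠ 0 := by
        have : 0 < Nat.card G := Nat.card_pos
        positivity
      field_simp
      linarith
    exact ⟨l, hlen, hok, by rw [hap, h5]⟩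

end Pool.Agent.Helper2.BN
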